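import Pool.Agent.W172.MK.Stm

/-!
# MK-BR: integrating out the innovation
-/

set_option autoImplicit false

open MeasureTheory ProbabilityTheory Filter Topology

namespace Pool.Agent.W705.MK.BR

open Pool.Agent.W172.MK

theorem br : P_BR := by
  intro S _ μ _ p F hp hF x h hh hC
  obtain ⟨C, hC⟩ := hC
  obtain ⟨B, hB⟩ := hp.bdd
  have hpm : ∀ {α : Type} [MeasurableSpace α] {f g : α → S}, Measurable f → Measurable g →
      Measurable (fun a => p (f a) (g a)) := fun hf hg => hp.meas.comp (hf.prodMk hg)
  have hhm : ∀ {α : Type} [MeasurableSpace α] {f g : α → S}, Measurable f → Measurable g →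
      Measurable (fun a => h (f a) (g a)) := fun hf hg => hh.comp (hf.prodMk hg)
  have hFm : Measurable (fun w : S × unitInterval => F (x, w.1) w.2) :=
    hF.meas.comp ((measurable_const.prodMk measurable_fst).prodMk measurable_snd)
  have hi1 : Integrable (fun w : S × unitInterval => h w.1 (F (x, w.1) w.2))
      (μ.prod (volume : Measure unitInterval)) :=
    Integrable.of_bound (hhm measurable_fst hFm).aestronglyMeasurable C
      (Eventually.of_forall fun w => hC _ _)
  rw [integral_prod _ hi1]
  have h1 : ∀ y, ∫ u, h y (F (x, y) u) = ∫ z, h y z * (p x z * p z y) ∂μ := fun y =>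
    hF.int x y (h y) (hh.comp (measurable_const.prodMk measurable_id)) ⟨C, hC y⟩
  simp only [h1]
  have hB0 : ∀ a b, |p a b| ≤ B := fun a b => by
    rw [abs_of_nonneg (hp.nonneg a b)]; exact hB a b
  have hi2 : Integrable (Function.uncurry fun y z => h y z * (p x z * p z y)) (μ.prod μ) := by
    refine Integrable.of_bound (C := C * (B * B)) ?_ (Eventually.of_forall fun w => ?_)
    · exact ((hhm measurable_fst measurable_snd).mul
        ((hpm measurable_const measurable_snd).mul
          (hpm measurable_snd measurable_fst))).aestronglyMeasurable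
    · simp only [Function.uncurry]
      rw [Real.norm_eq_abs, abs_mul, abs_mul]
      have hC0 : 0 ≤ C := (abs_nonneg _).trans (hC w.1 w.2)
      have hB1 : 0 ≤ B := (abs_nonneg _).trans (hB0 x x)
      gcongr
      · exact hC _ _
      · exact hB0 _ _
      · exact hB0 _ _
  rw [integral_integral_swap hi2]
  refine integral_congr_ae (Eventually.of_forall fun z => ?_)
  simp only
  rw [← integral_const_mul]
  refine integral_congr_ae (Eventually.of_forall fun y => ?_)
  simp only
  ring

end Pool.Agent.W705.MK.BR
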